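import Pool.Agent.Y503.RB.Def2

/-!
# RB2-REF: framed pieces

Job of helper503 (project RB), done by helper232.
-/

set_option autoImplicit false

namespace Pool.Agent.Y232.RB.Ref

open Pool.Agent.Y503.RB
open scoped ContDiff RealInnerProductSpace ENNReal Topology
open MeasureTheory Set Metric

theorem patch_mono {φ : ℂ → E4} {U U' : Set ℂ} (h : Patch φ U) (hU' : U' ⊆ U) (ho : IsOpen U') :
    Patch φ U' :=
  ⟨ho, h.smooth.mono hU', fun z hz => h.imm z (hU' hz), fun z hz => h.inside z (hU' hz)⟩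

/-- countably many framed open sets -/
theorem cover (hLF : St_LF) {φ : ℂ → E4} {U : Set ℂ} (hφ : Patch φ U) :
    ∃ (N₁ N₂ : ℕ → ℂ → E4) (U' : ℕ → Set ℂ),
      (∀ j, IsOpen (U' j) ∧ Frame φ (N₁ j) (N₂ j) (U' j) ∧ U' j ⊆ U) ∧ U ⊆ ⋃ j, U' j := by
  classical
  rcases U.eq_empty_or_nonempty with hU | ⟨z₀, hz₀⟩
  · refine ⟨fun _ _ => 0, fun _ _ => 0, fun _ => ∅, ?_, by rw [hU]; exact empty_subset _⟩
    intro j
    refine ⟨isOpen_empty, ?_, empty_subset _⟩
    exact ⟨by intro x hx; exact absurd hx (notMem_empty x),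
      by intro x hx; exact absurd hx (notMem_empty x),
      fun z hz => absurd hz (notMem_empty z), fun z hz => absurd hz (notMem_empty z),
      fun z hz => absurd hz (notMem_empty z), fun z hz => absurd hz (notMem_empty z),
      fun z hz => absurd hz (notMem_empty z)⟩
  · choose V hVU hzV hVo M₁ M₂ hF using fun z : U => hLF φ U hφ z z.2
    obtain ⟨T, hT, hTU⟩ := TopologicalSpace.isOpen_iUnion_countable V hVo
    have hcov : ∀ z : U, ∃ i ∈ T, (z : ℂ) ∈ V i := by
      intro z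
      have h1 : (z : ℂ) ∈ ⋃ i, V i := mem_iUnion.2 ⟨z, hzV z⟩
      rw [← hTU] at h1
      simpa using h1
    have hTne : T.Nonempty := by
      obtain ⟨i, hi, -⟩ := hcov ⟨z₀, hz₀⟩
      exact ⟨i, hi⟩
    obtain ⟨f, hf⟩ := hT.exists_eq_range hTne
    refine ⟨fun j => M₁ (f j), fun j => M₂ (f j), fun j => V (f j),
      fun j => ⟨hVo _, hF _, hVU _⟩, ?_⟩
    intro z hz
    obtain ⟨i, hi, hzi⟩ := hcov ⟨z, hz⟩
    rw [hf] at hi
    obtain ⟨j, rfl⟩ := hi
    exact mem_iUnion.2 ⟨j, hzi⟩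

theorem ref_of (hLF : St_LF) (hI : St_IND) : St_REF := by
  intro φ U A hφ hA hAU
  obtain ⟨N₁, N₂, U', h, hU⟩ := cover hLF hφ
  have hdm : ∀ j, MeasurableSet (disjointed U' j) :=
    fun j => MeasurableSet.disjointed (fun i => (h i).1.measurableSet) j
  have hsub : ∀ j, A ∩ disjointed U' j ⊆ U' j := fun j =>
    inter_subset_right.trans (disjointed_subset U' j)
  refine ⟨N₁, N₂, U', fun j => A ∩ disjointed U' j, ?_, hU, ?_, ?_⟩
  · intro j
    exact ⟨patch_mono hφ (h j).2.2 (h j).1, (h j).2.1, hA.inter (hdm j), hsub j, (h j).2.2⟩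
  · intro z hz
    have h1 : z ∈ ⋃ j, disjointed U' j := by
      rw [iUnion_disjointed]
      exact hU (hAU hz)
    obtain ⟨j, hj⟩ := mem_iUnion.1 h1
    exact mem_iUnion.2 ⟨j, hz, hj⟩
  · have h1 : ∀ j, curv φ (N₁ j) (N₂ j) (A ∩ disjointed U' j) =
        ∫⁻ z in A ∩ disjointed U' j, curvAt φ z := by
      intro j
      unfold curv
      apply setLIntegral_congr_fun (hA.inter (hdm j))
      intro z hz
      exact hI φ (N₁ j) (N₂ j) (U' j) (patch_mono hφ (h j).2.2 (h j).1) (h j).2.1 z (hsub j hz)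
    simp_rw [h1]
    rw [← lintegral_iUnion (fun j => hA.inter (hdm j))]
    · apply lintegral_mono_set
      exact iUnion_subset fun j => inter_subset_left
    · intro i j hij
      have := disjoint_disjointed U' hij
      exact this.mono inter_subset_right inter_subset_right

end Pool.Agent.Y232.RB.Ref
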